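import Mathlib

set_option autoImplicit false

namespace Pool.Agent.Results.MP_c10dfe_an.NotTrans

open Polynomial

/-- `A ≥ B`: there is a non-constant polynomial `π` with `π ∘ A = B ∘ π`. -/
def SemiConj (A B : ℂ[X]) : Prop := ∃ π : ℂ[X], 0 < π.natDegree ∧ π.comp A = B.comp π

lemma fac (F : ℂ[X]) (a : ℂ) (h : F.eval a = a) :
    ∃ k : ℂ[X], F - C a = (X - C a) * k ∧ k.eval a = (derivative F).eval a := by
  obtain ⟨k, hk⟩ : X - C a ∣ F - C a := dvd_iff_isRoot.mpr (by simp [h])
  refine ⟨k, hk, ?_⟩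
  have := congrArg (fun p => (derivative p).eval a) hk
  simpa using this.symm

lemma mult {A B : ℂ[X]} (h : SemiConj A B) (a : ℂ) (ha : A.eval a = a) :
    ∃ (b : ℂ) (e : ℕ), B.eval b = b ∧ e ≠ 0 ∧ (derivative A).eval a ^ e = (derivative B).eval b := by
  obtain ⟨π, hπ, h⟩ := h
  have hb : B.eval (π.eval a) = π.eval a := by
    have := congrArg (eval a) h
    simpa [eval_comp, ha] using this.symm
  set b := π.eval a with hbdef
  have hne : π - C b ≠ 0 := fun h0 => by
    rw [sub_eq_zero.mp h0] at hπ; simp at hπ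
  obtain ⟨g, hg, hg2⟩ := exists_eq_pow_rootMultiplicity_mul_and_not_dvd _ hne a
  have he : rootMultiplicity a (π - C b) ≠ 0 :=
    ((rootMultiplicity_pos hne).mpr (by simp [hbdef])).ne'
  generalize rootMultiplicity a (π - C b) = e at hg he
  obtain ⟨k, hk, hk2⟩ := fac A a ha
  obtain ⟨l, hl, hl2⟩ := fac B b hb
  refine ⟨b, e, hb, he, ?_⟩
  have e1 : (π - C b).comp A = (X - C a) ^ e * (k ^ e * g.comp A) := by
    rw [hg]; simp only [mul_comp, pow_comp, sub_comp, X_comp, C_comp]; rw [hk, mul_pow, mul_assoc]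
  have e2 : (B - C b).comp π = (X - C a) ^ e * (g * l.comp π) := by
    rw [hl]; simp only [mul_comp, sub_comp, X_comp, C_comp]; rw [hg]; ring
  have e3 : (π - C b).comp A = (B - C b).comp π := by simp [h]
  rw [e1, e2] at e3
  have e4 := congrArg (eval a) (mul_left_cancel₀ (pow_ne_zero _ (X_sub_C_ne_zero a)) e3)
  have hg3 : g.eval a ≠ 0 := fun h0 => hg2 (dvd_iff_isRoot.mpr h0)
  simp only [eval_mul, eval_pow, eval_comp, ha, ← hbdef, hk2, hl2] at e4
  rw [mul_comm] at e4
  exact mul_left_cancel₀ hg3 e4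

lemma re_inv {u : ℂ} (h : ‖1 + u‖ = 1) (h0 : u ≠ 0) : (u⁻¹).re = -1 / 2 := by
  have h1 : Complex.normSq (1 + u) = 1 := by rw [Complex.normSq_eq_norm_sq, h]; norm_num
  have h2 : Complex.normSq u ≠ 0 := by simpa using h0
  rw [Complex.inv_re, div_eq_iff h2]
  simp only [Complex.normSq_apply, Complex.add_re, Complex.add_im, Complex.one_re,
    Complex.one_im] at h1 ⊢
  linarith

theorem result :
    ∃ P Q R φ ψ : ℂ[X], P.natDegree = 3 ∧ Q.natDegree = 3 ∧ R.natDegree = 3 ∧
      φ.natDegree = 3 ∧ ψ.natDegree = 3 ∧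
      SemiConj φ P ∧ SemiConj φ R ∧ SemiConj ψ R ∧ SemiConj ψ Q ∧
      ¬ ∃ Φ : ℂ[X], SemiConj Φ P ∧ SemiConj Φ Q := by
  have d1 : (X ^ 3 + X : ℂ[X]).natDegree = 3 := by compute_degree!
  have d2 : (-(X ^ 3 + X) : ℂ[X]).natDegree = 3 := by rw [natDegree_neg, d1]
  refine ⟨X ^ 3 + X, -(X ^ 3 + X), X ^ 3 + 2 * X ^ 2 + X, X ^ 3 + X, -(X ^ 3 + X), d1, d2,
    by compute_degree!, d1, d2, ⟨X, by simp, by simp⟩, ⟨X ^ 2, by simp, by simp; ring⟩,
    ⟨X ^ 2, by simp, by simp; ring⟩, ⟨X, by simp, by simp⟩, ?_⟩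
  rintro ⟨Φ, h1, h2⟩
  have hd : Φ.natDegree = 3 := by
    obtain ⟨π, hπ, h⟩ := h1
    have := congrArg natDegree h
    rw [natDegree_comp, natDegree_comp, d1, mul_comm] at this
    exact Nat.eq_of_mul_eq_mul_right hπ this
  have key : ∀ a, Φ.eval a = a → (derivative (Φ - X)).eval a ≠ 0 ∧
      (((derivative (Φ - X)).eval a)⁻¹).re = -1 / 2 := by
    intro a ha
    obtain ⟨b, e, hb, he, hm⟩ := mult h1 a ha
    obtain ⟨b', e', hb', he', hm'⟩ := mult h2 a ha
    have hb0 : b = 0 := by simpa using hb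
    have hn : ‖(derivative Φ).eval a‖ = 1 := by
      have := congrArg norm hm
      simp only [hb0, norm_pow] at this
      simp at this
      exact (pow_eq_one_iff_of_nonneg (norm_nonneg _) he).mp this
    have hne : (derivative (Φ - X)).eval a ≠ 0 := by
      intro h0
      have h3 : (derivative Φ).eval a = 1 := by simpa [sub_eq_zero] using h0
      rw [h3] at hm'
      simp at hm' hb'
      have : b' * (3 * b' ^ 2 + 2) = 0 := by linear_combination b' * hm'
      have : b' = 0 := by linear_combination (-3/4) * hb' - (1/4) * this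
      rw [this] at hm'
      norm_num at hm'
    exact ⟨hne, re_inv (by simpa using hn) hne⟩
  have hd' : (Φ - X).natDegree = 3 := by
    rw [natDegree_sub_eq_left_of_natDegree_lt (by simp [hd]), hd]
  have hs := IsAlgClosed.splits (Φ - X)
  have hc := hs.natDegree_eq_card_roots
  rw [hd'] at hc
  obtain ⟨a, b, c, habc⟩ := Multiset.card_eq_three.mp hc.symm
  have hp := hs.eq_prod_roots
  rw [habc] at hp
  generalize (Φ - X).leadingCoeff = l at hp
  have hr : ∀ z, (z - a) * (z - b) * (z - c) = 0 → Φ.eval z = z := by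
    intro z hz
    have := congrArg (eval z) hp
    simp only [eval_sub, eval_X, Multiset.insert_eq_cons, Multiset.map_cons,
      Multiset.map_singleton, Multiset.prod_cons, Multiset.prod_singleton, eval_mul,
      eval_C] at this
    linear_combination this + l * hz
  have ka := key a (hr a (by simp))
  have kb := key b (hr b (by simp))
  have kc := key c (hr c (by simp))
  have ev : ∀ z, (derivative (Φ - X)).eval z =
      l * ((z - b) * (z - c) + (z - a) * (z - c) + (z - a) * (z - b)) := by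
    intro z
    rw [hp]; simp; left; ring
  rw [ev] at ka kb kc
  simp only [sub_self, zero_mul, mul_zero, add_zero, zero_add] at ka kb kc
  have hsum : (l * ((a - b) * (a - c)))⁻¹ + (l * ((b - a) * (b - c)))⁻¹ +
      (l * ((c - a) * (c - b)))⁻¹ = 0 := by
    have h3 := ka.1
    have h4 := kb.1
    simp only [ne_eq, mul_eq_zero, not_or] at h3 h4
    obtain ⟨-, h5, h6⟩ := h3
    obtain ⟨h7, h8, h9⟩ := h4
    have h10 : c - a ≠ 0 := fun h => h6 (by linear_combination -h)
    have h11 : c - b ≠ 0 := fun h => h9 (by linear_combination -h)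
    field_simp
    ring
  have := congrArg Complex.re hsum
  rw [Complex.add_re, Complex.add_re, ka.2, kb.2, kc.2] at this
  norm_num at this

end Pool.Agent.Results.MP_c10dfe_an.NotTrans
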